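import Mathlib

set_option autoImplicit false

namespace Pool.Agent.Results.MP_550572_gt.Ten

open Set

/-- The heights at which the strands `i` and `j` meet. -/
def cross {n : ℕ} (x : Fin n → ℝ → ℝ) (i j : Fin n) : Set ℝ := {t | t ∈ Icc (0 : ℝ) 1 ∧ x i t = x j t}

/-- `x i t` is the horizontal position of strand `i` at height `t ∈ [0,1]` of a pure braid
projection. -/
def IsPure {n : ℕ} (x : Fin n → ℝ → ℝ) : Prop :=
  (∀ i, ContinuousOn (x i) (Icc 0 1)) ∧ StrictMono (fun i => x i 0) ∧ StrictMono (fun i => x i 1) ∧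
  (∀ i j, i ≠ j → (cross x i j).Finite) ∧
  (∀ i j k t, i ≠ j → j ≠ k → i ≠ k → t ∈ cross x i j → t ∉ cross x j k) ∧
  (∀ i j, i ≠ j → ∀ t ∈ cross x i j, ∃ δ > 0, ∀ a ∈ Ioo (t - δ) t, ∀ b ∈ Ioo t (t + δ),
    (x i a - x j a) * (x i b - x j b) < 0)

/-- The CN matrix. -/
noncomputable def CN {n : ℕ} (x : Fin n → ℝ → ℝ) (i j : Fin n) : ℕ :=
  if i = j then 0 else (cross x i j).ncard

/-- The condition T0. -/
def T0 {n : ℕ} (M : Fin n → Fin n → ℕ) : Prop :=
  (∀ i, M i i = 0) ∧ ∀ i j k, i < j → j < k → M i j = 0 → M j k = 0 → M i k = 0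

def rel : List (ℕ × ℕ) := [(0, 2), (1, 2), (2, 9), (0, 9), (1, 9), (1, 7), (7, 8), (7, 9), (1, 8),
  (1, 4), (3, 4), (4, 8), (3, 8), (0, 5), (5, 6), (5, 9), (0, 6), (3, 6)]

def MM (i j : Fin 10) : ℕ := if i = j ∨ (i.val, j.val) ∈ rel ∨ (j.val, i.val) ∈ rel then 0 else 2

lemma zero_between {g : ℝ → ℝ} (hg : ContinuousOn g (Icc 0 1)) {a b : ℝ} (h0 : 0 ≤ a) (hab : a ≤ b)
    (h1 : b ≤ 1) (h : g a * g b < 0) : ∃ t, a < t ∧ t < b ∧ g t = 0 := by
  have hc := hg.mono (Icc_subset_Icc h0 h1)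
  rcases lt_or_ge (g a) 0 with ha | ha
  · have hb : 0 < g b := by nlinarith
    obtain ⟨t, ht, e⟩ := intermediate_value_Ioo hab hc ⟨ha, hb⟩
    exact ⟨t, ht.1, ht.2, e⟩
  · have hb : g b < 0 := by
      by_contra hh
      nlinarith [mul_nonneg ha (not_lt.1 hh)]
    have ha' : 0 < g a := by
      rcases ha.eq_or_lt with e | e
      · rw [← e] at h; simp at h
      · exact e
    obtain ⟨t, ht, e⟩ := intermediate_value_Ioo' hab hc ⟨hb, ha'⟩
    exact ⟨t, ht.1, ht.2, e⟩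

section
variable {n : ℕ} {x : Fin n → ℝ → ℝ} (hx : IsPure x)
include hx

lemma stay {i j : Fin n} (hij : i < j) (h : CN x i j = 0) {t : ℝ} (ht : t ∈ Icc (0 : ℝ) 1) :
    x i t < x j t := by
  rw [CN, if_neg hij.ne, ncard_eq_zero (hx.2.2.2.1 i j hij.ne)] at h
  have h0 : x i 0 < x j 0 := hx.2.1 hij
  by_contra hh
  rcases (not_lt.1 hh).eq_or_lt with e | e
  · exact (h ▸ (⟨ht, e.symm⟩ : t ∈ cross x i j) : t ∈ (∅ : Set ℝ))
  · obtain ⟨s, s1, s2, s3⟩ := zero_between ((hx.1 i).sub (hx.1 j)) le_rfl ht.1 ht.2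
      (by show (x i 0 - x j 0) * (x i t - x j t) < 0; nlinarith)
    exact (h ▸ (⟨⟨s1.le, s2.le.trans ht.2⟩, sub_eq_zero.1 s3⟩ : s ∈ cross x i j) : s ∈ (∅ : Set ℝ))

lemma flip {i j : Fin n} (hij : i < j) (h : CN x i j = 2) :
    ∃ t ∈ Icc (0 : ℝ) 1, x j t < x i t := by
  rw [CN, if_neg hij.ne] at h
  obtain ⟨t, ht⟩ := nonempty_of_ncard_ne_zero (s := cross x i j) (by omega)
  obtain ⟨δ, hδ, hd⟩ := hx.2.2.2.2.2 i j hij.ne t ht
  have t0 : 0 < t := lt_of_le_of_ne ht.1.1 fun e => by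
    have := ht.2; rw [← e] at this; exact (hx.2.1 hij).ne this
  have t1 : t < 1 := lt_of_le_of_ne ht.1.2 fun e => by
    have := ht.2; rw [e] at this; exact (hx.2.2.1 hij).ne this
  obtain ⟨a, ha1, ha2⟩ := exists_between (max_lt (show t - δ < t by linarith) t0)
  obtain ⟨b, hb1, hb2⟩ := exists_between (lt_min (show t < t + δ by linarith) t1)
  rw [max_lt_iff] at ha1
  rw [lt_min_iff] at hb2
  have := hd a ⟨ha1.1, ha2⟩ b ⟨hb1, hb2.1⟩
  rcases lt_or_ge (x j a) (x i a) with h1 | h1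
  · exact ⟨a, ⟨ha1.2.le, by linarith⟩, h1⟩
  · refine ⟨b, ⟨by linarith, hb2.2.le⟩, ?_⟩
    by_contra hh
    nlinarith [mul_nonneg (sub_nonneg.2 h1) (sub_nonneg.2 (not_lt.1 hh))]

lemma conv {i j : Fin n} (hij : i < j) (h : CN x i j = 2) {a b c : ℝ} (ha : a ∈ Icc (0 : ℝ) 1)
    (hc : c ∈ Icc (0 : ℝ) 1) (hab : a ≤ b) (hbc : b ≤ c) (h1 : x j a < x i a) (h2 : x i b < x j b)
    (h3 : x j c < x i c) : False := by
  rw [CN, if_neg hij.ne] at h
  have hg := (hx.1 i).sub (hx.1 j)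
  have h0 : x i 0 < x j 0 := hx.2.1 hij
  obtain ⟨s, s1, s2, s3⟩ := zero_between hg le_rfl ha.1 ha.2
    (by show (x i 0 - x j 0) * (x i a - x j a) < 0; nlinarith)
  obtain ⟨t, t1, t2, t3⟩ := zero_between hg ha.1 hab (hbc.trans hc.2)
    (by show (x i a - x j a) * (x i b - x j b) < 0; nlinarith)
  obtain ⟨u, u1, u2, u3⟩ := zero_between hg (ha.1.trans hab) hbc hc.2
    (by show (x i b - x j b) * (x i c - x j c) < 0; nlinarith)
  have hs : ({s, t, u} : Set ℝ) ⊆ cross x i j := by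
    rintro _ (rfl | rfl | rfl)
    · exact ⟨⟨s1.le, by linarith [ha.2]⟩, sub_eq_zero.1 s3⟩
    · exact ⟨⟨by linarith [ha.1], by linarith [hc.2]⟩, sub_eq_zero.1 t3⟩
    · exact ⟨⟨by linarith [ha.1], by linarith [hc.2]⟩, sub_eq_zero.1 u3⟩
  have := ncard_le_ncard hs (hx.2.2.2.1 i j hij.ne)
  rw [ncard_eq_three.2 ⟨s, t, u, by linarith, by linarith, by linarith, rfl⟩] at this
  omega

end

theorem result : ∃ M : Fin 10 → Fin 10 → ℕ, (∀ i j, M i j = M j i) ∧ (∀ i j, Even (M i j)) ∧ T0 M ∧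
    ∀ x : Fin 10 → ℝ → ℝ, IsPure x → CN x ≠ M := by
  refine ⟨MM, by decide, by decide, ⟨by decide, by decide +kernel⟩, fun x hx e => ?_⟩
  have st : ∀ i j : Fin 10, i < j → MM i j = 0 → ∀ t ∈ Icc (0 : ℝ) 1, x i t < x j t :=
    fun i j h1 h2 t ht => stay hx h1 (e ▸ h2) ht
  obtain ⟨p, hp, ep⟩ := flip hx (i := 0) (j := 8) (by decide) (by rw [e]; decide)
  obtain ⟨q, hq, eq⟩ := flip hx (i := 1) (j := 6) (by decide) (by rw [e]; decide)
  obtain ⟨r, hr, er⟩ := flip hx (i := 3) (j := 9) (by decide) (by rw [e]; decide)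
  have a02 := st 0 2 (by decide) (by decide)
  have a12 := st 1 2 (by decide) (by decide)
  have a29 := st 2 9 (by decide) (by decide)
  have a17 := st 1 7 (by decide) (by decide)
  have a78 := st 7 8 (by decide) (by decide)
  have a79 := st 7 9 (by decide) (by decide)
  have a14 := st 1 4 (by decide) (by decide)
  have a34 := st 3 4 (by decide) (by decide)
  have a48 := st 4 8 (by decide) (by decide)
  have a05 := st 0 5 (by decide) (by decide)
  have a56 := st 5 6 (by decide) (by decide)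
  have a59 := st 5 9 (by decide) (by decide)
  have a06 := st 0 6 (by decide) (by decide)
  have a36 := st 3 6 (by decide) (by decide)
  have X3p : x 3 p < x 2 p := by linarith [a34 p hp, a48 p hp, a02 p hp]
  have X3q : x 3 q < x 2 q := by linarith [a36 q hq, a12 q hq]
  have X3r : x 2 r < x 3 r := by linarith [a29 r hr]
  have X2p : x 7 p < x 6 p := by linarith [a78 p hp, a06 p hp]
  have X2r : x 7 r < x 6 r := by linarith [a79 r hr, a36 r hr]
  have X2q : x 6 q < x 7 q := by linarith [a17 q hq]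
  have X1q : x 5 q < x 4 q := by linarith [a56 q hq, a14 q hq]
  have X1r : x 5 r < x 4 r := by linarith [a59 r hr, a34 r hr]
  have X1p : x 4 p < x 5 p := by linarith [a48 p hp, a05 p hp]
  have c3 := @conv _ x hx 2 3 (by decide) (by rw [e]; decide)
  have c2 := @conv _ x hx 6 7 (by decide) (by rw [e]; decide)
  have c1 := @conv _ x hx 4 5 (by decide) (by rw [e]; decide)
  rcases le_total p q with h1 | h1 <;> rcases le_total q r with h2 | h2 <;>
    rcases le_total p r with h3 | h3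
  · exact c2 hp hr h1 h2 X2p X2q X2r
  · exact c2 hp hr h1 h2 X2p X2q X2r
  · exact c3 hp hq h3 h2 X3p X3r X3q
  · exact c1 hr hq h3 h1 X1r X1p X1q
  · exact c1 hq hr h1 h3 X1q X1p X1r
  · exact c3 hq hp h2 h3 X3q X3r X3p
  · exact c2 hr hp h2 h1 X2r X2q X2p
  · exact c2 hr hp h2 h1 X2r X2q X2p

end Pool.Agent.Results.MP_550572_gt.Ten
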